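import Pool.Agent.Helper89.FPV

/-!
# A maximally monotone operator which is not of type (FPV), whose domain has nonconvex closure,
# and for which Rockafellar's sum theorem fails

The space is `X = ℝ × c₀(ℕ × ℕ)` (isomorphic to `c₀`).
-/

set_option autoImplicit false

open Filter Topology ZeroAtInfty

namespace Pool.Agent.Results.MP_f1354d_an.NonconvexDomain

variable {X : Type} [NormedAddCommGroup X] [NormedSpace ℝ X]

/-- `(x, xs)` is monotonically related to the part of the graph of `A` over `U`. -/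
def RelatedOver (A : X → Set (X →L[ℝ] ℝ)) (U : Set X) (x : X) (xs : X →L[ℝ] ℝ) : Prop :=
  ∀ y ∈ U, ∀ ys ∈ A y, 0 ≤ (xs - ys) (x - y)

/-- `A` is maximally monotone: monotone, and each pair monotonically related to its whole graph
belongs to it. -/
def MaxMonotone (A : X → Set (X →L[ℝ] ℝ)) : Prop :=
  (∀ x : X, ∀ xs ∈ A x, RelatedOver A Set.univ x xs) ∧
    ∀ (x : X) (xs : X →L[ℝ] ℝ), RelatedOver A Set.univ x xs → xs ∈ A x

/-- the domain of `A` -/
def dom (A : X → Set (X →L[ℝ] ℝ)) : Set X := {x | (A x).Nonempty}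

/-- type (FPV) -/
def TypeFPV (A : X → Set (X →L[ℝ] ℝ)) : Prop :=
  ∀ U : Set X, IsOpen U → Convex ℝ U → (U ∩ dom A).Nonempty →
    ∀ x ∈ U, ∀ xs : X →L[ℝ] ℝ, RelatedOver A U x xs → xs ∈ A x

/-- pointwise (Minkowski) sum of two set-valued operators -/
def sumOp (A B : X → Set (X →L[ℝ] ℝ)) : X → Set (X →L[ℝ] ℝ) :=
  fun x => {f | ∃ g ∈ A x, ∃ h ∈ B x, f = g + h}

/-- the normal cone operator of a set `C` -/
def normalCone (C : Set X) : X → Set (X →L[ℝ] ℝ) :=
  fun x => {f | x ∈ C ∧ ∀ y ∈ C, f (y - x) ≤ 0}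

/-- the space of the example -/
abbrev Sp : Type := ℝ × C₀(ℕ × ℕ, ℝ)

theorem result : ∃ A : Sp → Set (Sp →L[ℝ] ℝ), MaxMonotone A ∧
    ¬ TypeFPV A ∧
    ¬ Convex ℝ (closure (dom A)) ∧
    ∃ C : Set Sp, IsClosed C ∧ Convex ℝ C ∧ MaxMonotone (normalCone C) ∧
      (dom A ∩ interior (dom (normalCone C))).Nonempty ∧
      ¬ MaxMonotone (sumOp A (normalCone C)) := by
  obtain ⟨A, ⟨hmono, hmax⟩, hgap, ⟨y0, hy0, hne0⟩, ⟨y1, hy1, hne1⟩, hrel⟩ :=
    Pool.Agent.Helper89.FPV.main_data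
  have hnot : ∀ f : Sp →L[ℝ] ℝ, f ∉ A ((1 / 4, 0) : Sp) := by
    intro f hf
    rcases hgap _ _ hf with h | h
    · have : (1 / 4 : ℝ) ≤ 0 := h
      norm_num at this
    · have : (1 : ℝ) ≤ 1 / 4 := h
      norm_num at this
  have hopen : IsOpen {x : Sp | x.1 < 1 / 2} := isOpen_lt continuous_fst continuous_const
  refine ⟨A, ⟨fun x xs hxs y _ ys hys => hmono x y xs hxs ys hys,
    fun x xs h => hmax x xs fun y ys hys => h y (Set.mem_univ y) ys hys⟩, ?_, ?_,
    {x | x.1 ≤ 1 / 2}, isClosed_le continuous_fst continuous_const,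
    convex_halfSpace_le (LinearMap.isLinear (LinearMap.fst ℝ ℝ _)) (1 / 2), ?_, ?_, ?_⟩
  · intro h
    refine hnot ((8 : ℝ) • ContinuousLinearMap.fst ℝ ℝ _) (h {x | x.1 < 1 / 2} hopen
      (convex_halfSpace_lt (LinearMap.isLinear (LinearMap.fst ℝ ℝ _)) (1 / 2)) ⟨y0, ?_, hne0⟩
      ((1 / 4, 0) : Sp) ?_ _ fun y hy ys hys => hrel y hy ys hys)
    · show y0.1 < 1 / 2
      linarith
    · show (1 / 4 : ℝ) < 1 / 2
      norm_num
  · intro hconv
    have hsub : closure (dom A) ⊆ {x : Sp | x.1 ≤ 0} ∪ {x : Sp | 1 ≤ x.1} := by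
      refine closure_minimal ?_ ((isClosed_le continuous_fst continuous_const).union
        (isClosed_le continuous_const continuous_fst))
      rintro x ⟨f, hf⟩
      exact hgap x f hf
    have h0 : y0 ∈ closure (dom A) := subset_closure hne0
    have h1 : y1 ∈ closure (dom A) := subset_closure hne1
    have hd : 0 < y1.1 - y0.1 := by linarith
    set t : ℝ := (1 / 2 - y0.1) / (y1.1 - y0.1) with ht
    have ht0 : 0 ≤ t := div_nonneg (by linarith) hd.le
    have ht1 : t ≤ 1 := by rw [ht, div_le_one hd]; linarith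
    have hmem := hconv h0 h1 (sub_nonneg.2 ht1) ht0 (by ring)
    have hval : ((1 - t) • y0 + t • y1).1 = 1 / 2 := by
      simp only [Prod.fst_add, Prod.smul_fst, smul_eq_mul]
      have : t * (y1.1 - y0.1) = 1 / 2 - y0.1 := by
        rw [ht]
        field_simp
      linarith
    rcases hsub hmem with h | h
    · have : ((1 - t) • y0 + t • y1).1 ≤ 0 := h
      rw [hval] at this
      norm_num at this
    · have : 1 ≤ ((1 - t) • y0 + t • y1).1 := h
      rw [hval] at this
      norm_num at this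
  · constructor
    · rintro x f ⟨hx, hf⟩ y _ g ⟨hy, hg⟩
      have h1 := hf y hy
      have h2 := hg x hx
      have h3 : f (y - x) = -f (x - y) := by rw [← map_neg, neg_sub]
      rw [sub_apply]
      linarith
    · intro x f h
      have hx : x ∈ {x : Sp | x.1 ≤ 1 / 2} := by
        by_contra hx
        have hx' : 1 / 2 < x.1 := not_le.1 hx
        set y : Sp := (1 / 2, 0) with hy
        have hyC : y ∈ {x : Sp | x.1 ≤ 1 / 2} := by
          show (1 / 2 : ℝ) ≤ 1 / 2
          exact le_rfl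
        have hd : 0 < x.1 - 1 / 2 := by linarith
        set l : ℝ := (|f (x - y)| + 1) / (x.1 - 1 / 2) with hl
        have hl0 : 0 ≤ l := by positivity
        have h1 := h y (Set.mem_univ y) (l • ContinuousLinearMap.fst ℝ ℝ _) ⟨hyC, fun z hz => by
          have hz' : z.1 ≤ 1 / 2 := hz
          have h2 : (l • ContinuousLinearMap.fst ℝ ℝ C₀(ℕ × ℕ, ℝ)) (z - y) = l * (z.1 - 1 / 2) := rfl
          rw [h2]
          exact mul_nonpos_of_nonneg_of_nonpos hl0 (by linarith)⟩
        have h2 : (f - l • ContinuousLinearMap.fst ℝ ℝ C₀(ℕ × ℕ, ℝ)) (x - y)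
            = f (x - y) - l * (x.1 - 1 / 2) := rfl
        have h3 : l * (x.1 - 1 / 2) = |f (x - y)| + 1 := by
          rw [hl]
          exact div_mul_cancel₀ _ hd.ne'
        rw [h2, h3] at h1
        have h4 := le_abs_self (f (x - y))
        linarith
      refine ⟨hx, fun y hy => ?_⟩
      have h1 := h y (Set.mem_univ y) 0 ⟨hy, fun z _ => by simp⟩
      rw [sub_zero] at h1
      have h3 : f (y - x) = -f (x - y) := by rw [← map_neg, neg_sub]
      linarith
  · refine ⟨y0, hne0, ?_⟩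
    rw [mem_interior]
    refine ⟨{x | x.1 < 1 / 2}, ?_, hopen, ?_⟩
    · intro z hz
      have hz' : z.1 < 1 / 2 := hz
      exact ⟨0, hz'.le, fun w _ => by simp⟩
    · show y0.1 < 1 / 2
      linarith
  · rintro ⟨_, h⟩
    obtain ⟨g, hg, _, _, _⟩ := h ((1 / 4, 0) : Sp) ((8 : ℝ) • ContinuousLinearMap.fst ℝ ℝ _) (by
      rintro y _ ys ⟨g, hg, k, ⟨hyC, hk⟩, rfl⟩
      have hy : y.1 < 1 / 2 := by
        have hyC' : y.1 ≤ 1 / 2 := hyC
        rcases hgap y g hg with h1 | h1 <;> linarith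
      have h1 := hrel y hy g hg
      have h2 := hk ((1 / 4, 0) : Sp) (by
        show (1 / 4 : ℝ) ≤ 1 / 2
        norm_num)
      have h3 : ((8 : ℝ) • ContinuousLinearMap.fst ℝ ℝ C₀(ℕ × ℕ, ℝ) - (g + k)) (((1 / 4, 0) : Sp) - y)
          = ((8 : ℝ) • ContinuousLinearMap.fst ℝ ℝ C₀(ℕ × ℕ, ℝ) - g) (((1 / 4, 0) : Sp) - y)
            - k (((1 / 4, 0) : Sp) - y) := by
        simp only [sub_apply, add_apply]
        ring
      rw [h3]
      linarith)
    exact hnot g hg

end Pool.Agent.Results.MP_f1354d_an.NonconvexDomain
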